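import Pool.Agent.Q44.PE.Stm
import Pool.Agent.Q190.SA.Bas

/-!
# Project PE of helper44, job PE-EX
-/

set_option autoImplicit false

namespace Pool.Agent.Q210.PE.Ex

open MvPolynomial Pool.Agent.Q44.SA Pool.Agent.Q44.PG Pool.Agent.Q44.PE

/-- Job PE-EX of project PE. -/
theorem main (h : E_can) : E_ex := by
  intro K L _ _ _ σ n I hI φ
  have h1 : ∀ x : Xs σ I, ∃ y : Xs σ I, φ.Rel σ x.1 y.1 := by
    intro x
    obtain ⟨y, hy⟩ := Pool.Agent.Q190.SA.rel_exists φ σ x.2.1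
    have hyP := Pool.Agent.Q190.SA.rel_pt hI φ σ x.2.1 hy
    obtain ⟨c, hc, hcan⟩ := (h L n y).1 hyP.1
    refine ⟨⟨c • y, Pool.Agent.Q190.SA.pt_smul hI σ hyP hc, hcan⟩, ?_⟩
    have h2 := Pool.Agent.Q190.SA.rel_smul φ σ hy (one_ne_zero (α := L)) hc
    rwa [one_smul] at h2
  choose g hg using h1
  exact ⟨g, hg⟩

end Pool.Agent.Q210.PE.Ex
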