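import Pool.Agent.Q44.PE.Stm

/-!
# Project PE of helper44, job PE-LI
-/

set_option autoImplicit false

namespace Pool.Agent.Q210.PE.Li

open MvPolynomial Pool.Agent.Q44.SA Pool.Agent.Q44.PG Pool.Agent.Q44.PE

variable {L : Type} [NormedField L] [IsUltrametricDist L] {n : ℕ}

theorem sum_le {ι : Type} (s : Finset ι) (f : ι → L) {C : ℝ} (hC : 0 ≤ C) (h : ∀ i ∈ s, ‖f i‖ ≤ C) :
    ‖∑ i ∈ s, f i‖ ≤ C := IsUltrametricDist.norm_sum_le_of_forall_le_of_nonneg hC h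

theorem add_le (u v : Fin n → L) {C : ℝ} (hu : ‖u‖ ≤ C) (hv : ‖v‖ ≤ C) : ‖u + v‖ ≤ C := by
  rw [pi_norm_le_iff_of_nonneg ((norm_nonneg u).trans hu)]
  intro i
  exact (IsUltrametricDist.norm_add_le_max (u i) (v i)).trans
    (max_le ((norm_le_pi_norm u i).trans hu) ((norm_le_pi_norm v i).trans hv))

theorem mulVec_le (A : Matrix (Fin n) (Fin n) L) (hA : ∀ a b, ‖A a b‖ ≤ 1) (v : Fin n → L) :
    ‖A.mulVec v‖ ≤ ‖v‖ := by
  rw [pi_norm_le_iff_of_nonneg (norm_nonneg v)]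
  intro a
  have h0 : A.mulVec v a = ∑ b, A a b * v b := rfl
  rw [h0]
  refine sum_le (L := L) _ _ (norm_nonneg v) (fun b _ => ?_)
  rw [norm_mul]
  calc ‖A a b‖ * ‖v b‖ ≤ 1 * ‖v‖ :=
        mul_le_mul (hA a b) (norm_le_pi_norm v b) (norm_nonneg _) zero_le_one
    _ = ‖v‖ := one_mul _

theorem mul_le' (A B : Matrix (Fin n) (Fin n) L) (hA : ∀ a b, ‖A a b‖ ≤ 1) (hB : ∀ a b, ‖B a b‖ ≤ 1)
    (a b : Fin n) : ‖(A * B) a b‖ ≤ 1 := by
  rw [Matrix.mul_apply]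
  refine sum_le _ _ zero_le_one (fun c _ => ?_)
  rw [norm_mul]
  exact mul_le_one₀ (hA a c) (norm_nonneg _) (hB c b)

/-- Job PE-LI of project PE. -/
theorem main : E_lin := by
  intro L _ _ n ε hε hε1 𝒳 g h hg hh P
  obtain ⟨A, hA, hA2⟩ := hh P
  obtain ⟨B, hB, hB2⟩ := hg (h P)
  have hlip : ∀ x y : 𝒳, ‖(x : Fin n → L) - P‖ ≤ ε → ‖(y : Fin n → L) - P‖ ≤ ε →
      ‖(h y : Fin n → L) - h x‖ ≤ ‖(y : Fin n → L) - x‖ := by
    intro x y hx hy
    have h1 := hA2 x y hx hy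
    have h2 := mulVec_le A hA ((y : Fin n → L) - x)
    have h3 : (h y : Fin n → L) - h x = (((h y : Fin n → L) - h x) - A.mulVec ((y : Fin n → L) - x)) +
        A.mulVec ((y : Fin n → L) - x) := by abel
    rw [h3]
    refine add_le _ _ (h1.trans ?_) h2
    have := norm_nonneg ((y : Fin n → L) - x)
    nlinarith
  have hPP : ‖(P : Fin n → L) - P‖ ≤ ε := by rw [sub_self, norm_zero]; exact hε.le
  refine ⟨B * A, mul_le' B A hB hA, fun x y hx hy => ?_⟩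
  have hx' : ‖(h x : Fin n → L) - h P‖ ≤ ε := (hlip P x hPP hx).trans hx
  have hy' : ‖(h y : Fin n → L) - h P‖ ≤ ε := (hlip P y hPP hy).trans hy
  have h1 := hB2 (h x) (h y) hx' hy'
  have h2 := hlip x y hx hy
  have h3 := hA2 x y hx hy
  have h4 := mulVec_le B hB (((h y : Fin n → L) - h x) - A.mulVec ((y : Fin n → L) - x))
  have h5 : (g (h y) : Fin n → L) - g (h x) - (B * A).mulVec ((y : Fin n → L) - x) =
      ((g (h y) : Fin n → L) - g (h x) - B.mulVec ((h y : Fin n → L) - h x)) +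
      B.mulVec (((h y : Fin n → L) - h x) - A.mulVec ((y : Fin n → L) - x)) := by
    rw [Matrix.mulVec_sub B _ (A.mulVec _), Matrix.mulVec_mulVec]
    abel
  rw [h5]
  refine add_le _ _ (h1.trans ?_) (h4.trans h3)
  exact mul_le_mul_of_nonneg_left h2 hε.le

end Pool.Agent.Q210.PE.Li
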